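import Pool.Agent.CHV.Main

set_option autoImplicit false

open Filter

namespace Pool.Agent.Results.MP_5dcc87_pr.LogThreeHalves

/-- For every constant `p` in `(0, 1)` the standard deviation `σ n` of the chromatic number of the
binomial random graph `G(n, p)` is `O(√n / (log n) ^ (3/2))`. -/
theorem result : ∀ p : ℝ, 0 < p → p < 1 →
    ∀ E σ : ℕ → ℝ,
      (∀ n : ℕ, E n =
        Finset.sum
          (Finset.powerset
            (Finset.filter (fun e : Sym2 (Fin n) => ¬ e.IsDiag)
              (Finset.univ : Finset (Sym2 (Fin n)))))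
          (fun S : Finset (Sym2 (Fin n)) =>
            p ^ S.card * (1 - p) ^ (Nat.choose n 2 - S.card) *
              ((ENat.toNat (SimpleGraph.chromaticNumber
                (SimpleGraph.fromEdgeSet ((S : Set (Sym2 (Fin n))))))) : ℝ))) →
      (∀ n : ℕ, σ n = Real.sqrt
        (Finset.sum
          (Finset.powerset
            (Finset.filter (fun e : Sym2 (Fin n) => ¬ e.IsDiag)
              (Finset.univ : Finset (Sym2 (Fin n)))))
          (fun S : Finset (Sym2 (Fin n)) =>
            p ^ S.card * (1 - p) ^ (Nat.choose n 2 - S.card) *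
              (((ENat.toNat (SimpleGraph.chromaticNumber
                (SimpleGraph.fromEdgeSet ((S : Set (Sym2 (Fin n))))))) : ℝ) - E n) ^ 2))) →
      ∃ C : ℝ, 0 < C ∧ ∀ᶠ n : ℕ in atTop,
          σ n ≤ C * (Real.sqrt (n : ℝ) / (Real.log (n : ℝ)) ^ (3 / 2 : ℝ)) :=
  Pool.Agent.CHV.main

end Pool.Agent.Results.MP_5dcc87_pr.LogThreeHalves
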