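import Pool.Agent.CHP.Main

set_option autoImplicit false

open Filter

namespace Pool.Agent.Results.MP_5dcc87_pr.PowerSaving

/-- For every constant `p` in `(0, 1 - e ^ (-2)]` and every `ε > 0`, for all sufficiently large `n`:
if for some `a` the expected number `μ` of independent sets of size `a` of the binomial random graph
`G(n, p)` satisfies `√n ≤ μ ≤ n ^ (1 - ε)`, then the standard deviation `σ n` of the chromatic number
of `G(n, p)` is at most `(log n) ^ 8 (n ^ (2/5) + √μ)`. -/
theorem result : ∀ p : ℝ, 0 < p → p ≤ 1 - Real.exp (-2) → ∀ ε : ℝ, 0 < ε →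
    ∀ E σ : ℕ → ℝ,
      (∀ n : ℕ, E n =
        Finset.sum
          (Finset.powerset
            (Finset.filter (fun e : Sym2 (Fin n) => ¬ e.IsDiag)
              (Finset.univ : Finset (Sym2 (Fin n)))))
          (fun S : Finset (Sym2 (Fin n)) =>
            p ^ S.card * (1 - p) ^ (Nat.choose n 2 - S.card) *
              ((ENat.toNat (SimpleGraph.chromaticNumber
                (SimpleGraph.fromEdgeSet ((S : Set (Sym2 (Fin n))))))) : ℝ))) →
      (∀ n : ℕ, σ n = Real.sqrt
        (Finset.sum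
          (Finset.powerset
            (Finset.filter (fun e : Sym2 (Fin n) => ¬ e.IsDiag)
              (Finset.univ : Finset (Sym2 (Fin n)))))
          (fun S : Finset (Sym2 (Fin n)) =>
            p ^ S.card * (1 - p) ^ (Nat.choose n 2 - S.card) *
              (((ENat.toNat (SimpleGraph.chromaticNumber
                (SimpleGraph.fromEdgeSet ((S : Set (Sym2 (Fin n))))))) : ℝ) - E n) ^ 2))) →
      ∀ᶠ n : ℕ in atTop, ∀ a : ℕ,
        (n : ℝ) ^ (1 / 2 : ℝ) ≤ (Nat.choose n a : ℝ) * (1 - p) ^ (Nat.choose a 2) →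
        (Nat.choose n a : ℝ) * (1 - p) ^ (Nat.choose a 2) ≤ (n : ℝ) ^ (1 - ε) →
          σ n ≤ Real.log (n : ℝ) ^ 8 * ((n : ℝ) ^ (2 / 5 : ℝ) +
            Real.sqrt ((Nat.choose n a : ℝ) * (1 - p) ^ (Nat.choose a 2))) :=
  Pool.Agent.CHP.main

end Pool.Agent.Results.MP_5dcc87_pr.PowerSaving
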